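import Pool.Agent.H91.FR.AllG
import Pool.Agent.H57.W1.H91.D2.TlcA
import Pool.Agent.H31.W1.H91.D2.TlcA

/-!
# One subclass for the free velocities and the entropy fields

`rnum_ptr`: the numbers of the records at all rational windows. `fa_tl`: in one subclass, at almost
every critical point of a closed set of good windows, `FreeAt`, `FreeNx` and `TlAt` hold for all small
scales.
-/

set_option autoImplicit false

namespace Pool.W.LA91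

open Pool.LA91

open Finset Real MvPolynomial
open Pool.Agent.H49.Ent Pool.Agent.H32.Dense Pool.STK Pool.KA Pool.KSAT Pool.K2S Pool.PB Pool.GEN
open Pool.S6C Pool.RCD

variable {m : ℕ}


/-- **One subclass** for `FreeAt`, `FreeNx` and `TlAt`. -/
theorem fa_tl {S : Pool.PB.PCl m} {C₀ M : ℝ} (hS : S.Ne)
    (hpos : ∀ (τ : ℝ) (J : ℕ) (F : Pool.KA.Fam m J) (A : F.Ω → Prop), S.St τ J F A → 0 < Pool.K2S.Pe F.p A)
    (htm : Pool.GEN.TmC S C₀)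
    (hM : Pool.S6C.Bas S (fun J F A => (Pool.S6C.cnt F.p (Pool.PB.ptr F J) A : ℝ) ≤ Real.exp (M * J)))
    {c : ℕ → Fin m} {d : ℕ} {A B : ℝ} {sn : ℕ → ℝ → ℝ} {G : Set ℝ} (hG : IsClosed G)
    (hW : Pool.LA91.ChG S c d sn G) (hB : B ≤ 1) :
    ∃ S' : Pool.PB.PCl m, S'.Ne ∧
      (∀ (τ : ℝ) (J : ℕ) (F : Pool.KA.Fam m J) (A : F.Ω → Prop), S'.St τ J F A → S.St τ J F A) ∧
      ∀ᵐ g : ℝ, g ∈ Set.Ioo A B → g ∈ G →
      (∀ i < d, HasDerivWithinAt (fun x => sn i x - x) 0 G g) →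
      ∀ (C : ℕ) (σ : ℚ), 0 < σ → σ ≤ 1 → ∀ κ : ℝ, 0 < κ → ∃ K : ℕ, ∀ k ≥ K,
        Pool.LA91.FreeAt S' (fun J F => Pool.PB.ptr F J) (fun _ F => F.W) c d sn G g C σ κ k ∧
        Pool.LA91.FreeNx S' (fun J F => Pool.PB.ptr F J) (fun _ F => F.W) c d sn G g C σ κ k ∧
        Pool.W.LA91.TlAt S' c d sn G g C σ κ k := by
  obtain ⟨S₁, a1, a2, η, hη⟩ := Pool.LA91.rnum_ptr hS hpos hM
  have hf : ∀ (J : ℕ) (F : Pool.KA.Fam m J), ∃ φ : Pool.GEN.PtT F → Pool.GEN.PtT F, ∀ ω, Pool.PB.ptr F J ω = φ (Pool.PB.ptr F J ω) :=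
    fun J F => ⟨fun x => x, fun _ => rfl⟩
  have p1 : ∀ (τ : ℝ) (J : ℕ) (F : Pool.KA.Fam m J) (A : F.Ω → Prop), S₁.St τ J F A → 0 < Pool.K2S.Pe F.p A :=
    fun τ J F A h => hpos τ J F A (a2 τ J F A h)
  have t1 : Pool.GEN.TmC S₁ C₀ := fun τ J F A hτ h => htm τ J F A hτ (a2 τ J F A h)
  have η1 : ∀ w : ℚ, A ≤ (w : ℝ) + 0 → (w : ℝ) + 0 ≤ 1 →
      Pool.RCD.RNum S₁ (fun J F => Pool.PB.ptr F J) (Pool.RCD.vg ((w : ℝ) + 0)) (η w) := by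
    intro w _ _
    rw [add_zero]
    exact hη w
  obtain ⟨S₂, b1, b2, b3⟩ := Pool.LA91.free_all a1 p1 t1 hG (hW.sub a2) hf (Pool.LA91.kn_W (c := c)) hB η1
  have p2 : ∀ (τ : ℝ) (J : ℕ) (F : Pool.KA.Fam m J) (A : F.Ω → Prop), S₂.St τ J F A → 0 < Pool.K2S.Pe F.p A :=
    fun τ J F A h => p1 τ J F A (b2 τ J F A h)
  have t2 : Pool.GEN.TmC S₂ C₀ := fun τ J F A hτ h => t1 τ J F A hτ (b2 τ J F A h)
  obtain ⟨S₃, c1, c2, c3⟩ := Pool.LA91.free_nx b1 p2 t2 hG ((hW.sub a2).sub b2) hf (Pool.LA91.kn_W (c := c)) hB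
    (fun w x1 x2 => (η1 w x1 x2).sub b2)
  have p3 : ∀ (τ : ℝ) (J : ℕ) (F : Pool.KA.Fam m J) (A : F.Ω → Prop), S₃.St τ J F A → 0 < Pool.K2S.Pe F.p A :=
    fun τ J F A h => p2 τ J F A (c2 τ J F A h)
  have t3 : Pool.GEN.TmC S₃ C₀ := fun τ J F A hτ h => t2 τ J F A hτ (c2 τ J F A h)
  obtain ⟨S₄, d1, d2, d3⟩ := Pool.W.LA91.tl_all c1 p3 t3 hG (((hW.sub a2).sub b2).sub c2) hB
    (fun w x1 x2 => ((η1 w x1 x2).sub b2).sub c2)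
  refine ⟨S₄, d1, fun τ J F A h => a2 τ J F A (b2 τ J F A (c2 τ J F A (d2 τ J F A h))), ?_⟩
  filter_upwards [b3, c3, d3] with g hb hc hd hAB hgG hder C σ hσ0 hσ1 κ hκ
  obtain ⟨K₁, hK₁⟩ := hb hAB hgG hder C σ hσ0 hσ1 κ hκ
  obtain ⟨K₂, hK₂⟩ := hc hAB hgG hder C σ hσ0 hσ1 κ hκ
  obtain ⟨K₃, hK₃⟩ := hd hAB hgG hder C σ hσ0 hσ1 κ hκ
  refine ⟨max K₁ (max K₂ K₃), fun k hk => ⟨?_, ?_, ?_⟩⟩
  · exact (hK₁ k ((le_max_left _ _).trans hk)).sub fun τ J F A h =>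
      c2 τ J F A (d2 τ J F A h)
  · exact (hK₂ k (((le_max_left _ _).trans (le_max_right _ _)).trans hk)).sub d2
  · exact hK₃ k (((le_max_right _ _).trans (le_max_right _ _)).trans hk)

end Pool.W.LA91
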