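import Pool.Agent.H91.FR.QpG
import Pool.Agent.H57.W1.H91.FR.AllG
import Pool.Agent.H31.W1.H91.D2.TlcA
import Pool.Agent.H31.W1.H91.FR.QpG
import Pool.Agent.H31.W1.H91.FR.SubA

/-!
# The free velocities and the entropy fields as a property of the windows

`fa_tl_le`: one subclass for `FreeAt`, `FreeNx` and `TlAt` for all lengths of the chain. `FaQ`: the
property of a window, for the joints of the class theorems; `aePG_fa`: it holds at almost every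
window, in a subclass. `sumQ`, `aePG_sum`: two properties at once.
-/

set_option autoImplicit false

namespace Pool.W.LA91

open Pool.LA91

open Finset Real MvPolynomial
open Pool.Agent.H49.Ent Pool.Agent.H32.Dense Pool.STK Pool.KA Pool.KSAT Pool.K2S Pool.PB Pool.GEN
open Pool.S6C Pool.RCD Pool.PKG Pool.CHT Pool.GRW
open Pool.TOP (TopS)

/-- **One subclass** for `FreeAt`, `FreeNx` and `TlAt`, all lengths. -/
theorem fa_tl_le {m : ℕ} {S : Pool.PB.PCl m} {C₀ M : ℝ} (hS : S.Ne)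
    (hpos : ∀ (τ : ℝ) (J : ℕ) (F : Pool.KA.Fam m J) (A : F.Ω → Prop), S.St τ J F A → 0 < Pool.K2S.Pe F.p A)
    (htm : Pool.GEN.TmC S C₀)
    (hM : Pool.S6C.Bas S (fun J F A => (Pool.S6C.cnt F.p (Pool.PB.ptr F J) A : ℝ) ≤ Real.exp (M * J)))
    {c : ℕ → Fin m} {A B : ℝ} {sn : ℕ → ℝ → ℝ} {G : Set ℝ} (hG : IsClosed G) (hB : B ≤ 1)
    (N : ℕ) (hW : ∀ d < N, Pool.LA91.ChG S c d sn G) :
    ∃ S' : Pool.PB.PCl m, S'.Ne ∧
      (∀ (τ : ℝ) (J : ℕ) (F : Pool.KA.Fam m J) (A : F.Ω → Prop), S'.St τ J F A → S.St τ J F A) ∧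
      ∀ᵐ g : ℝ, g ∈ Set.Ioo A B → g ∈ G → ∀ d < N,
      (∀ i < d, HasDerivWithinAt (fun x => sn i x - x) 0 G g) →
      ∀ (C : ℕ) (σ : ℚ), 0 < σ → σ ≤ 1 → ∀ κ : ℝ, 0 < κ → ∃ K : ℕ, ∀ k ≥ K,
        Pool.LA91.FreeAt S' (fun J F => Pool.PB.ptr F J) (fun _ F => F.W) c d sn G g C σ κ k ∧
        Pool.LA91.FreeNx S' (fun J F => Pool.PB.ptr F J) (fun _ F => F.W) c d sn G g C σ κ k ∧
        Pool.W.LA91.TlAt S' c d sn G g C σ κ k := by
  induction N with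
  | zero => exact ⟨S, hS, fun _ _ _ _ h => h, Filter.Eventually.of_forall fun g _ _ d hd =>
      absurd hd (Nat.not_lt_zero d)⟩
  | succ N ih =>
    obtain ⟨S₁, a1, a2, a3⟩ := ih fun d hd => hW d (by omega)
    obtain ⟨S₂, b1, b2, b3⟩ := Pool.W.LA91.fa_tl a1 (fun τ J F A h => hpos τ J F A (a2 τ J F A h))
      (fun τ J F A hτ h => htm τ J F A hτ (a2 τ J F A h)) (hM.sub a2) hG
      ((hW N (Nat.lt_succ_self N)).sub a2) hB (A := A)
    refine ⟨S₂, b1, fun τ J F A h => a2 τ J F A (b2 τ J F A h), ?_⟩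
    filter_upwards [a3, b3] with g ha hb hAB hg d hd hder C σ hσ0 hσ1 κ hκ
    rcases Nat.lt_succ_iff_lt_or_eq.1 hd with h | rfl
    · obtain ⟨K, hK⟩ := ha hAB hg d h hder C σ hσ0 hσ1 κ hκ
      exact ⟨K, fun k hk => ⟨(hK k hk).1.sub b2, (hK k hk).2.1.sub b2, (hK k hk).2.2.sub b2⟩⟩
    · exact hb hAB hg hder C σ hσ0 hσ1 κ hκ


end Pool.W.LA91
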